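import Pool.Agent.Q38.GE.Stm

/-!
# Project GE: the job DLF
-/

set_option autoImplicit false

namespace Pool.Agent.Q149.GE

open Q38.GE Matrix

section
variable {K : Type} [Field K] {n : ℕ} {R : Type} [CommRing R] [Algebra K R] {r s : Type}
  [Fintype r] [DecidableEq r] [Fintype s] [DecidableEq s] (X : Fin n → Matrix r r R)
  (Y : Fin n → Matrix s s R) (W : Fin n → Matrix r s R)

lemma ev_blocks (a : A K n) :
    (ev (K := K) (fun i => Matrix.fromBlocks (X i) (W i) 0 (Y i)) a).toBlocks₂₁ = 0 ∧
      (ev (K := K) (fun i => Matrix.fromBlocks (X i) (W i) 0 (Y i)) a).toBlocks₂₂ = ev Y a := by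
  induction a using FreeAlgebra.induction with
  | grade0 k =>
    rw [AlgHom.commutes, AlgHom.commutes]
    constructor
    · ext i j
      simp [Matrix.toBlocks₂₁, Matrix.algebraMap_matrix_apply]
    · ext i j
      simp [Matrix.toBlocks₂₂, Matrix.algebraMap_matrix_apply]
  | grade1 i =>
    constructor
    · simp [ev]
    · simp [ev]
  | mul a b ha hb =>
    rw [map_mul, map_mul]
    set M := ev (K := K) (fun i => Matrix.fromBlocks (X i) (W i) 0 (Y i)) a
    set N := ev (K := K) (fun i => Matrix.fromBlocks (X i) (W i) 0 (Y i)) b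
    rw [← Matrix.fromBlocks_toBlocks M, ← Matrix.fromBlocks_toBlocks N,
      Matrix.fromBlocks_multiply, Matrix.toBlocks_fromBlocks₂₁, Matrix.toBlocks_fromBlocks₂₂,
      ha.1, ha.2, hb.1, hb.2]
    simp
  | add a b ha hb =>
    rw [map_add, map_add]
    constructor
    · have h1 := ha.1
      have h2 := hb.1
      ext i j
      have e1 := congrFun (congrFun h1 i) j
      have e2 := congrFun (congrFun h2 i) j
      simp only [Matrix.toBlocks₂₁, Matrix.of_apply, Matrix.add_apply, Matrix.zero_apply] at *
      rw [e1, e2, add_zero]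
    · rw [← ha.2, ← hb.2]
      ext i j
      simp [Matrix.toBlocks₂₂]

lemma dl_add (a b : A K n) : dl X Y W (a + b) = dl X Y W a + dl X Y W b := by
  ext i j
  simp [dl, Matrix.toBlocks₁₂]

lemma dl_sum {ι : Type} (t : Finset ι) (f : ι → A K n) :
    dl X Y W (∑ i ∈ t, f i) = ∑ i ∈ t, dl X Y W (f i) := by
  classical
  induction t using Finset.induction_on with
  | empty =>
    ext i j
    simp [dl, Matrix.toBlocks₁₂]
  | insert a t ha ih => rw [Finset.sum_insert ha, Finset.sum_insert ha, dl_add, ih]

lemma dl_const (k : K) : dl X Y W (algebraMap K (A K n) k) = 0 := by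
  unfold dl
  rw [AlgHom.commutes]
  ext i j
  simp [Matrix.toBlocks₁₂, Matrix.algebraMap_matrix_apply]

lemma dl_x_mul (i : Fin n) (a : A K n) :
    dl X Y W (x K i * a) = X i * dl X Y W a + W i * ev Y a := by
  unfold dl
  rw [map_mul]
  have h := ev_blocks (K := K) X Y W a
  set M := ev (K := K) (fun i => Matrix.fromBlocks (X i) (W i) 0 (Y i)) a
  have e : ev (K := K) (fun i => Matrix.fromBlocks (X i) (W i) 0 (Y i)) (x K i) =
      Matrix.fromBlocks (X i) (W i) 0 (Y i) := by
    simp [ev]
  rw [e, ← h.2]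
  conv_lhs => rw [← Matrix.fromBlocks_toBlocks M]
  rw [Matrix.fromBlocks_multiply, Matrix.toBlocks_fromBlocks₁₂]

end

theorem dlf (h : S_TR) : S_DLF := by
  intro K _ n R _ _ r s _ _ _ _ X Y W a N hN
  obtain ⟨T1, -⟩ := h K n
  induction N generalizing a with
  | zero =>
    have h0 : a = 0 := hN [] (Nat.zero_le _)
    subst h0
    rw [wds, Finset.sum_empty]
    ext i j
    simp [dl, Matrix.toBlocks₁₂]
  | succ N ih =>
    have e1 : dl X Y W a = ∑ i, (X i * dl X Y W (tr i a) + W i * ev Y (tr i a)) := by
      conv_lhs => rw [T1 a]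
      rw [dl_add, dl_const, zero_add, dl_sum]
      exact Finset.sum_congr rfl fun i _ => dl_x_mul X Y W i _
    have e2 : ∀ i : Fin n, dl X Y W (tr i a) =
        ∑ u ∈ wds n N, ∑ j, mo X u * W j * ev Y (tr j (trw (i :: u) a)) := by
      intro i
      exact ih (tr i a) (fun u hu => hN (i :: u) (by simpa using hu))
    rw [e1, Finset.sum_add_distrib, wds, Finset.sum_insert, Finset.sum_image, Finset.sum_product]
    · rw [add_comm]
      congr 1
      · refine Finset.sum_congr rfl fun j _ => ?_
        simp [mo, trw]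
      · refine Finset.sum_congr rfl fun i _ => ?_
        rw [e2 i, Matrix.mul_sum]
        refine Finset.sum_congr rfl fun u _ => ?_
        rw [Matrix.mul_sum]
        refine Finset.sum_congr rfl fun j _ => ?_
        simp only [mo, List.map_cons, List.prod_cons, Matrix.mul_assoc]
    · rintro ⟨i, u⟩ - ⟨j, v⟩ - huv
      simp only [List.cons.injEq] at huv
      rw [huv.1, huv.2]
    · simp

end Pool.Agent.Q149.GE
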